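import Pool.Agent.H992.SF.Defs
import Pool.Graph.R_pool_sql_team_seeded_63374d34.N40.BRSTATH

/-!
# Slow functions do not feel displacements at the fast scale
-/

set_option autoImplicit false
open MeasureTheory Filter Topology Complex
open scoped ContDiff

namespace Pool.Agent.H974.SF

open Pool.Agent.W745.RW (TF)
open Pool.Agent.Y265.RW (int_mul int_mulr)
open Pool.Agent.Y265.HY (SY FW)
open Pool.Agent.N661.BH (HP mv)
open Pool.Agent.N814.BHASM
open Pool.Agent.N40.BRSTATH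
open Pool.Agent.H992.SF (S_SLOW S_EQ2)

/-- composition of two displacements at different scales -/
lemma mv_two {h k : ℝ} (hh : 0 < h) (x y z : ℂ) :
    mv h y (mv k x z) = mv h (((1 + k * x.im : ℝ) : ℂ) * y + ((k / h : ℝ) : ℂ) * x) z := by
  have h1 := Pool.Agent.N645.BH.mv_im k x z
  have h3 : mv h y (mv k x z) = mv k x z + ((h * (mv k x z).im : ℝ) : ℂ) * y := rfl
  rw [h3, h1]
  have h4 : mv k x z = z + ((k * z.im : ℝ) : ℂ) * x := rfl
  have h5 : mv h (((1 + k * x.im : ℝ) : ℂ) * y + ((k / h : ℝ) : ℂ) * x) z =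
    z + ((h * z.im : ℝ) : ℂ) * (((1 + k * x.im : ℝ) : ℂ) * y + ((k / h : ℝ) : ℂ) * x) := rfl
  rw [h4, h5]
  have h6 : ((h : ℝ) : ℂ) * ((k / h : ℝ) : ℂ) = ((k : ℝ) : ℂ) := by
    rw [← Complex.ofReal_mul, mul_div_cancel₀ _ hh.ne']
  push_cast at h6 ⊢
  linear_combination (-(z.im : ℂ) * x) * h6

theorem slow (h : S_EQ2) : S_SLOW := by
  intro Ω lam u H κ hκ hlim ψ hψ h0 x y
  have hψ2 : TF HP ψ := ⟨hψ.1, hψ.2.1, hψ.2.2.trans H.sub⟩
  have hh := H.sys.hlim
  have hpos : ∀ n, 0 < lam n := H.pos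
  obtain ⟨r, hr⟩ : ∃ r : ℕ → ℝ, r = fun n => (1 / √(κ n)) / (1 / √(lam n)) := ⟨_, rfl⟩
  have hr2 : ∀ n, r n = √(lam n / κ n) := by
    intro n
    rw [hr, Real.sqrt_div (hpos n).le]
    have h1 : √(lam n) ≠ 0 := (Real.sqrt_pos.2 (hpos n)).ne'
    have h2 : √(κ n) ≠ 0 := (Real.sqrt_pos.2 (hκ n)).ne'
    field_simp
  have hrlim : Tendsto r atTop (𝓝 0) := by
    have h1 := (Real.continuous_sqrt.tendsto 0).comp hlim
    rw [Real.sqrt_zero] at h1
    exact h1.congr fun n => (hr2 n).symm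
  obtain ⟨k, hk⟩ : ∃ k : ℕ → ℝ, k = fun n => 1 / √(κ n) := ⟨_, rfl⟩
  have hklim : Tendsto k atTop (𝓝 0) := by
    have h1 := hrlim.mul hh
    rw [mul_zero] at h1
    refine h1.congr fun n => ?_
    rw [hr, hk]
    have h1 : √(lam n) ≠ 0 := (Real.sqrt_pos.2 (hpos n)).ne'
    field_simp
  obtain ⟨v, hv⟩ : ∃ v : ℕ → ℂ, v = fun n =>
    ((1 + k n * x.im : ℝ) : ℂ) * y + ((r n : ℝ) : ℂ) * x := ⟨_, rfl⟩
  have hvlim : Tendsto v atTop (𝓝 y) := by
    have h1 : Tendsto (fun n => ((1 + k n * x.im : ℝ) : ℂ)) atTop (𝓝 ((1 + 0 * x.im : ℝ) : ℂ)) :=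
      (Complex.continuous_ofReal.tendsto _).comp ((hklim.mul_const x.im).const_add 1)
    have h2 : Tendsto (fun n => ((r n : ℝ) : ℂ)) atTop (𝓝 ((0 : ℝ) : ℂ)) :=
      (Complex.continuous_ofReal.tendsto _).comp hrlim
    have h3 := (h1.mul_const y).add (h2.mul_const x)
    rw [hv]
    simpa using h3
  obtain ⟨R, hR⟩ : ∃ R : ℝ, ∀ n, ‖v n‖ ≤ R := by
    obtain ⟨R, hR⟩ := (Metric.isBounded_range_of_tendsto v hvlim).exists_norm_le
    exact ⟨R, fun n => hR _ ⟨n, rfl⟩⟩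
  have hmv : ∀ n z, mv (1 / √(lam n)) y (mv (1 / √(κ n)) x z) = mv (1 / √(lam n)) (v n) z := by
    intro n z
    have h1 : 0 < 1 / √(lam n) := one_div_pos.2 (Real.sqrt_pos.2 (hpos n))
    rw [mv_two h1, hv, hk, hr]
  simp only [hmv]
  have hc : ∀ᶠ n in atTop, ContinuousOn (fun z => u n (mv (1 / √(lam n)) (v n) z) -
      u n (mv (1 / √(lam n)) y z)) HP := by
    filter_upwards [small H (R : ℂ), small H y] with n h1 h2
    have hp : (0:ℝ) ≤ 1 / √(lam n) := by positivity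
    have d1 : 0 < 1 + 1 / √(lam n) * (v n).im := by
      apply pos_of_small hp
      refine lt_of_le_of_lt ?_ h1
      apply mul_le_mul_of_nonneg_left _ hp
      rw [Complex.norm_real, Real.norm_eq_abs]
      exact (hR n).trans (le_abs_self R)
    have d2 := pos_of_small hp h2
    exact ((H.sm n).continuousOn.comp (mvc _ _).continuousOn
        fun z hz => (mem_HP_iff d1 z).2 hz).sub
      ((H.sm n).continuousOn.comp (mvc _ _).continuousOn fun z hz => (mem_HP_iff d2 z).2 hz)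
  refine l1l2 h0 (hψ.1.continuous.integrable_of_hasCompactSupport hψ.2.1) ?_ ?_ ?_
  · exact hc.mono fun n hn => int_mulr HP_open hψ2 (hn.pow 2)
  · exact hc.mono fun n hn => int_mulr HP_open hψ2 hn.abs
  · have h1 := h Ω (fun n => 1 / √(lam n)) (wl lam u) H.sys ψ hψ h0 v (fun _ => y)
      ⟨max R ‖y‖, fun n => ⟨(hR n).trans (le_max_left _ _), le_max_right _ _⟩⟩ ?_
    · refine h1.congr fun n => ?_
      refine integral_congr_ae (Eventually.of_forall fun z => ?_)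
      simp only
      rw [wl_zero, wl_zero, ← Complex.ofReal_sub, Complex.norm_real, Real.norm_eq_abs,
        sq_abs]
    · have h2 := hvlim.sub_const y
      rwa [sub_self] at h2

end Pool.Agent.H974.SF
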